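import Mathlib
import Pool.Agent.H.MP_0764b2_an.B

set_option autoImplicit false

namespace Pool.Agent.Results.MP_0764b2_an.Counter

open BoundedContinuousFunction

section Defs
variable {𝕜 Y : Type} [RCLike 𝕜] [NormedAddCommGroup Y] [NormedSpace 𝕜 Y]

/-- The shadowing property of an invertible operator. -/
def Shadowing (T : Y ≃L[𝕜] Y) : Prop :=
  ∃ K > (0 : ℝ), ∀ (z : ℤ → Y) (δ : ℝ), (∀ n, ‖z n‖ ≤ δ) →
    ∃ y : ℤ → Y, (∀ n, y (n + 1) - T (y n) = z n) ∧ ∀ n, ‖y n‖ ≤ K * δ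

/-- S maps the subspace M into itself and its restriction has spectral radius less than one. -/
def Contracts (S : Y ≃L[𝕜] Y) (M : Submodule 𝕜 Y) : Prop :=
  ∃ A : M →L[𝕜] M, (∀ x, (A x : Y) = S x) ∧ spectralRadius 𝕜 A < 1

/-- Generalized hyperbolicity. -/
def GenHyp (T : Y ≃L[𝕜] Y) : Prop :=
  ∃ M N : Submodule 𝕜 Y, IsClosed (M : Set Y) ∧ IsClosed (N : Set Y) ∧ IsCompl M N ∧
    Contracts T M ∧ Contracts T.symm N

end Defs

open Pool.Agent.H.MP_0764b2_an in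
theorem result (𝕜 : Type) [RCLike 𝕜] :
    ∃ (X : Type) (_ : NormedAddCommGroup X) (_ : NormedSpace 𝕜 X) (_ : CompleteSpace X)
      (S : X ≃L[𝕜] X) (σ : (ℤ →ᵇ X) ≃L[𝕜] (ℤ →ᵇ X)),
      (∀ x n, σ x n = S (x (n + 1))) ∧ Shadowing σ ∧ ¬ GenHyp σ ∧ Shadowing S ∧ ¬ GenHyp S := by
  obtain ⟨Z, W, _, _, _, _, _, _, q, hq1, hq2⟩ := exists_nonsplit 𝕜
  obtain ⟨Y, _, _, _, π, h⟩ := exists_model q
  obtain ⟨T, hT⟩ := h.exists_T
  obtain ⟨D, hD⟩ := h.exists_D
  obtain ⟨A, hA⟩ := exists_op (fun _ => (T : Y →L[𝕜] Y)) (· + 1) _ (norm_nonneg _)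
    fun _ => (T : Y →L[𝕜] Y).le_opNorm
  obtain ⟨B, hB⟩ := exists_op (fun _ => (T.symm : Y →L[𝕜] Y)) (· - 1) _ (norm_nonneg _)
    fun _ => (T.symm : Y →L[𝕜] Y).le_opNorm
  let σ : (ℤ →ᵇ Y) ≃L[𝕜] (ℤ →ᵇ Y) := ContinuousLinearEquiv.equivOfInverse A B
    (fun f => by ext k; simp [hA, hB]) (fun f => by ext k; simp [hA, hB])
  have hσ : ∀ x n, σ x n = T (x (n + 1)) := hA
  clear_value σ
  have key : ∀ {E : Type} [NormedAddCommGroup E] [NormedSpace 𝕜 E] [CompleteSpace E]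
      (U : E ≃L[𝕜] E), GenHyp U → ∃ R : E →L[𝕜] E, ∀ y, U (R y) - R y = y := by
    intro E _ _ _ U ⟨M, N, hM, hN, hc, ⟨A, hA, rA⟩, ⟨B, hB, rB⟩⟩
    refine right_inv U M N hM hN hc A B hA hB ?_ ?_
    · have := spectrum.mem_resolventSet_of_spectralRadius_lt (k := (1 : 𝕜)) (a := A) (by simpa using rA)
      rwa [spectrum.mem_resolventSet_iff, map_one] at this
    · have := spectrum.mem_resolventSet_of_spectralRadius_lt (k := (1 : 𝕜)) (a := B) (by simpa using rB)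
      rwa [spectrum.mem_resolventSet_iff, map_one] at this
  refine ⟨Y, inferInstance, inferInstance, inferInstance, T, σ, hσ, ⟨2, two_pos, fun z δ hz => ?_⟩,
    fun hg => ?_, ⟨2, two_pos, h.shadow hq1 T hT⟩, fun hg => ?_⟩
  · choose u h1 h2 using fun j : ℤ => h.shadow hq1 T hT (fun m => z m (j - m - 1)) δ
      fun m => ((z m).norm_coe_le_norm _).trans (hz m)
    have hδ : 0 ≤ 2 * δ := (norm_nonneg _).trans (h2 0 0)
    refine ⟨fun m => ofNormedAddCommGroupDiscrete (fun n => u (m + n) m) (2 * δ) fun n => h2 _ _,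
      fun m => ?_, fun m => (norm_le hδ).2 fun n => h2 _ _⟩
    ext n
    rw [BoundedContinuousFunction.sub_apply, hσ]
    have := h1 (m + 1 + n) m
    rw [show m + 1 + n - m - 1 = n by ring] at this
    rw [← this]
    change u (m + 1 + n) (m + 1) - T (u (m + (n + 1)) m) = _
    rw [show m + (n + 1) = m + 1 + n by ring]
  · obtain ⟨R, hR⟩ := key σ hg
    let C : Y →L[𝕜] (ℤ →ᵇ Y) := LinearMap.mkContinuous
      { toFun := fun y => const ℤ y, map_add' := fun _ _ => rfl, map_smul' := fun _ _ => rfl } 1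
      fun y => by simp
    refine h.no_right_inv hq2 T hT (D ∘L R ∘L C) fun y => h.ext _ _ fun k => ?_
    have := congrArg (fun f : ℤ →ᵇ Y => π k (f k)) (hR (C y))
    simp only [BoundedContinuousFunction.sub_apply, hσ, map_sub, hT] at this
    simp only [ContinuousLinearMap.comp_apply, map_sub, hT, hD]
    exact this
  · obtain ⟨R, hR⟩ := key T hg
    exact h.no_right_inv hq2 T hT R hR

end Pool.Agent.Results.MP_0764b2_an.Counter
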